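import Mathlib
import Pool.Agent.W301.SS.Avg

/-!
`R(x, y) = (π(x + y) - π(x)) / (y / log x)` is close to `1` on average over the points `x` of
almost every translate of every set which is not too sparse, uniformly for all `y` above a power
of the logarithm.

Method: Vinogradov's estimate for the exponential sum over primes at all points of the circle
(also near `0`), which gives cancellation against the Fourier kernel of a short interval, and
Parseval's identity for the two summands of a sumset; a grid of lengths `y`.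
-/

set_option autoImplicit false

/-- For all `ε > 0` and `C` there is `K` such that for all `N ≥ K` and every set `A` of at least
`N / (log N)^C` integers in `[1, N]` the following holds for all integers `b ∈ [1, N]` outside a
set of at most `N / (log N)^C` exceptions: simultaneously for all real `y` with
`(log N)^K ≤ y ≤ N` the average of `R(x, y) = (π(x + y) - π(x)) / (y / log x)` over the points
`x = a + b`, `a ∈ A`, differs from `1` by at most `ε`. -/
theorem Pool.Agent.Results.MP_293bbf_nt.TranslateAverages.result (ε : ℝ) (hε : 0 < ε) (C : ℕ) :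
    ∃ K : ℕ, ∀ N : ℕ, K ≤ N → ∀ A : Finset ℕ, A ⊆ Finset.Icc 1 N →
      (N : ℝ) / Real.log N ^ C ≤ A.card →
      ∃ E : Finset ℕ, E ⊆ Finset.Icc 1 N ∧ (E.card : ℝ) ≤ (N : ℝ) / Real.log N ^ C ∧
        ∀ b ∈ Finset.Icc 1 N, b ∉ E → ∀ y : ℝ, Real.log N ^ K ≤ y → y ≤ N →
          |(∑ a ∈ A, ((Nat.primeCounting ⌊((a + b : ℕ) : ℝ) + y⌋₊ : ℝ) -
              Nat.primeCounting (a + b)) / (y / Real.log ((a + b : ℕ) : ℝ))) / A.card - 1| ≤ ε := by
  obtain ⟨K, hK⟩ := Pool.Agent.W301.SS.avgVar (min ε 1) (lt_min hε one_pos) (min_le_right _ _) C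
  obtain ⟨N₀, hN₀⟩ := Filter.eventually_atTop.1 (hK.and (Pool.Agent.W301.SS.ev_L 1))
  refine ⟨max K (max N₀ 3), fun N hN A hA hAN => ?_⟩
  obtain ⟨h1, h2⟩ := hN₀ N ((le_max_left _ _).trans ((le_max_right _ _).trans hN))
  have hℓ : 0 < Real.log N := by linarith
  have hp : 0 < Real.log N ^ C := by positivity
  rw [div_le_iff₀ hp] at hAN
  obtain ⟨E, hE1, hE2, hE3⟩ := h1 A (fun a ha => (Finset.mem_Icc.1 (hA ha)).2) hAN
  refine ⟨E, hE1, by rw [le_div_iff₀ hp]; exact hE2, fun b hb hbE y hy1 hy2 => ?_⟩
  have hy3 : Real.log N ^ K ≤ y := (pow_le_pow_right₀ h2 (le_max_left _ _)).trans hy1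
  have hy0 : 0 ≤ y := le_trans (by positivity) hy3
  have hm : 0 < min ε 1 := lt_min hε one_pos
  have h3 := (hE3 b hb hbE).2.1 y hy3 hy2 (fun _ => y) (fun _ _ => ⟨by nlinarith, le_rfl⟩)
  exact h3.trans (min_le_left _ _)
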